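import Pool.Agent.Helper95.Lin.GoalsG
import Pool.Agent.Helper95.Lin.Basics

/-!
Packet EXTIME of MP_97d78d_ag.
-/

set_option autoImplicit false

open Complex Metric Set Filter Topology MeasureTheory
open scoped ContDiff ComplexConjugate ComplexOrder

namespace Pool.Agent.Helper49.Lin

open Pool.Agent.Helper95.Lin

/-- The pushed forward field. -/
theorem push_eq {b : ℕ} {D : Set (Cn b)} {Γ : Type} [Group Γ] {g : Γ → Cn b → Cn b}
    {m : ℕ} {V : Fin m → Cn b → Cn b} {A : Γ →* Matrix (Fin m) (Fin m) ℝ}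
    (hV : AbFam D g m V A) (γ : Γ) (v : Fin m → ℝ) {s : ℝ} (hs : s ≠ 0) {p : Cn b} (hp : p ∈ D) :
    fderiv ℂ (g γ⁻¹) p (s • ∑ k, ((I * (((A γ).mulVec v k / s : ℝ) : ℂ)) • V k p)) =
      I • ∑ i, v i • V i (g γ⁻¹ p) := by
  have hinv : (A γ⁻¹).mulVec ((A γ).mulVec v) = v := by
    rw [Matrix.mulVec_mulVec, ← map_mul, inv_mul_cancel, map_one, Matrix.one_mulVec]
  have h1 : (s • ∑ k, ((I * (((A γ).mulVec v k / s : ℝ) : ℂ)) • V k p)) =
      ∑ k, (I * (((A γ).mulVec v k : ℝ) : ℂ)) • V k p := by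
    rw [Finset.smul_sum]
    refine Finset.sum_congr rfl fun k _ => ?_
    rw [← Complex.coe_smul, smul_smul]
    congr 1
    push_cast
    have : (s : ℂ) ≠ 0 := by exact_mod_cast hs
    field_simp
  rw [h1, map_sum]
  have h2 : ∀ k, fderiv ℂ (g γ⁻¹) p ((I * (((A γ).mulVec v k : ℝ) : ℂ)) • V k p) =
      I • ∑ l, (A γ⁻¹ l k * (A γ).mulVec v k) • V l (g γ⁻¹ p) := by
    intro k
    rw [map_smul, hV.ad γ⁻¹ k p hp, mul_smul, Finset.smul_sum]
    congr 1
    refine Finset.sum_congr rfl fun l _ => ?_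
    rw [Complex.coe_smul, smul_smul, mul_comm]
  simp_rw [h2]
  rw [← Finset.smul_sum, Finset.sum_comm]
  congr 1
  refine Finset.sum_congr rfl fun l _ => ?_
  rw [← Finset.sum_smul]
  congr 1
  have := congrFun hinv l
  rw [Matrix.mulVec, dotProduct] at this
  exact this

/-- Packet EXTIME. -/
theorem exTime (hPLU : S_PLU) : S_EXTIME := by
  intro b D Γ _ g m V A hA hV K hKD hK
  obtain ⟨δ₀, hδ₀, hsol⟩ := hPLU D hA.act.isOpen V (fun k => (hV.inL k).1) K hKD hK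
  refine ⟨δ₀, hδ₀, ?_⟩
  intro y hy γ hγ v δ hδ hle
  set w := (A γ).mulVec v with hw
  by_cases hs : ‖w‖ = 0
  · have hw0 : w = 0 := norm_eq_zero.1 hs
    have hv0 : v = 0 := by
      have hinv : (A γ⁻¹).mulVec ((A γ).mulVec v) = v := by
        rw [Matrix.mulVec_mulVec, ← map_mul, inv_mul_cancel, map_one, Matrix.one_mulVec]
      rw [← hinv, ← hw, hw0, Matrix.mulVec_zero]
    refine ⟨fun _ => y, rfl, fun t _ => ⟨hy, ?_⟩⟩
    have : I • ∑ i, v i • V i y = 0 := by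
      simp [hv0]
    show HasDerivWithinAt (fun _ => y) (I • ∑ i, v i • V i y) (Icc 0 δ) t
    rw [this]
    exact hasDerivWithinAt_const _ _ _
  · have hs0 : 0 < ‖w‖ := lt_of_le_of_ne (norm_nonneg _) (Ne.symm hs)
    obtain ⟨u, hu0, hu⟩ := hsol (fun k => I * ((w k / ‖w‖ : ℝ) : ℂ)) (by
      rw [pi_norm_le_iff_of_nonneg zero_le_one]
      intro k
      rw [norm_mul, Complex.norm_I, one_mul, Complex.norm_real, norm_div, norm_norm,
        div_le_one hs0]
      exact norm_le_pi_norm w k) (g γ y) hγ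
    refine ⟨fun t => g γ⁻¹ (u (‖w‖ * t)), ?_, ?_⟩
    · show g γ⁻¹ (u (‖w‖ * 0)) = y
      rw [mul_zero, hu0]
      exact hA.act.inv_left γ hy
    · intro t ht
      have hmaps : MapsTo (fun t : ℝ => ‖w‖ * t) (Icc 0 δ) (Icc 0 δ₀) := by
        intro r hr
        refine ⟨mul_nonneg hs0.le hr.1, ?_⟩
        calc ‖w‖ * r ≤ ‖w‖ * δ := mul_le_mul_of_nonneg_left hr.2 hs0.le
          _ = δ * ‖w‖ := mul_comm _ _
          _ ≤ δ₀ := hle
      obtain ⟨hD, hder⟩ := hu (‖w‖ * t) (hmaps ht)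
      refine ⟨hA.act.maps _ _ hD, ?_⟩
      have h1 : HasDerivWithinAt (fun t : ℝ => ‖w‖ * t) ‖w‖ (Icc 0 δ) t := by
        simpa using ((hasDerivAt_id t).const_mul ‖w‖).hasDerivWithinAt
      have h2 := hder.scomp t h1 hmaps
      have h3 : HasFDerivAt (g γ⁻¹) (fderiv ℂ (g γ⁻¹) (u (‖w‖ * t))) (u (‖w‖ * t)) :=
        ((hA.act.holo γ⁻¹).differentiableAt (hA.act.isOpen.mem_nhds hD)).hasFDerivAt
      have h4 := (h3.restrictScalars ℝ).comp_hasDerivWithinAt t h2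
      have h5 := push_eq hV γ v hs0.ne' hD
      rw [← hw] at h5
      show HasDerivWithinAt (fun t => g γ⁻¹ (u (‖w‖ * t)))
        (I • ∑ i, v i • V i (g γ⁻¹ (u (‖w‖ * t)))) (Icc 0 δ) t
      rw [← h5]
      exact h4

end Pool.Agent.Helper49.Lin
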